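import Pool.Agent.N419.HU.Uni

/-!
Independence of the embedding; the form used for orbits.
-/

set_option autoImplicit false

namespace Pool.Agent.N419.HU

open Polynomial

theorem comp_map_eval₂ {k A B : Type} [Field k] [Field A] [Field B] {n : ℕ} (ψ : A →+* B)
    (σ : k →+* A) (p : Fin (n + 1) → A[X]) (F : MvPolynomial (Fin (n + 1)) k) :
    (MvPolynomial.eval₂ (C.comp σ) p F).map ψ =
      MvPolynomial.eval₂ (C.comp (ψ.comp σ)) (fun j => (p j).map ψ) F := by
  have h := MvPolynomial.eval₂_comp_left (Polynomial.mapRingHom ψ) (C.comp σ) p F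
  have h2 : (Polynomial.mapRingHom ψ).comp (C.comp σ) = C.comp (ψ.comp σ) := by
    ext z
    simp
  rw [h2] at h
  exact h

theorem map_const_iff {A B : Type} [Field A] [Field B] {n : ℕ} (ψ : A →+* B)
    (p : Fin (n + 1) → A[X]) (i j : Fin (n + 1)) :
    ((p i).map ψ * C (((p j).map ψ).eval 1) = (p j).map ψ * C (((p i).map ψ).eval 1)) ↔
      (p i * C ((p j).eval 1) = p j * C ((p i).eval 1)) := by
  have h1 : ∀ j, ((p j).map ψ).eval 1 = ψ ((p j).eval 1) := by
    intro j
    rw [Polynomial.eval_map, ← Polynomial.eval₂_at_apply, map_one]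
  rw [h1, h1, ← Polynomial.map_C, ← Polynomial.map_C, ← Polynomial.map_mul,
    ← Polynomial.map_mul]
  exact (Polynomial.map_injective ψ ψ.injective).eq_iff

/-- The condition on the curves does not depend on the embedding. -/
theorem curIn_indep {L : Type} [Field L] {n : ℕ} (τ τ' : L →+* ℂ)
    (FF GG : Set (MvPolynomial (Fin (n + 1)) L)) (h : CurIn τ FF GG) : CurIn τ' FF GG := by
  classical
  intro q hq ⟨G, hG, hne⟩ i j a b
  by_contra hab
  let La := AlgebraicClosure L
  have hext : ∀ σ : L →+* ℂ, ∃ σa : La →+* ℂ, σa.comp (algebraMap L La) = σ := by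
    intro σ
    let _ : Algebra L ℂ := σ.toAlgebra
    let σa : La →ₐ[L] ℂ := IsAlgClosed.lift
    exact ⟨σa, by ext z; exact σa.commutes z⟩
  obtain ⟨τa, hτa⟩ := hext τ
  obtain ⟨τa', hτa'⟩ := hext τ'
  let _ : Algebra La ℂ := τa'.toAlgebra
  -- shift of the parameter
  let sh : ℂ[X] →+* ℂ[X] := compRingHom (X + C (b - 1))
  let p : Fin (n + 1) → ℂ[X] := fun i => sh (q i)
  have hpe : ∀ i (t : ℂ), (p i).eval t = (q i).eval (t + (b - 1)) := by
    intro i t
    show ((q i).comp _).eval t = _
    rw [eval_comp, eval_add, eval_X, eval_C]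
  have hsh : ∀ F : MvPolynomial (Fin (n + 1)) L,
      sh (MvPolynomial.eval₂ (C.comp τ') q F) = MvPolynomial.eval₂ (C.comp τ') p F := by
    intro F
    have h1 := MvPolynomial.eval₂_comp_left sh (C.comp τ') q F
    have h2 : sh.comp (C.comp τ') = C.comp τ' := by
      ext z
      simp [sh]
    rw [h2] at h1
    exact h1
  have hshinj : Function.Injective sh := by
    intro u v huv
    have h1 : (u.comp (X + C (b - 1))).comp (X - C (b - 1)) =
        (v.comp (X + C (b - 1))).comp (X - C (b - 1)) := by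
      have h2 : u.comp (X + C (b - 1)) = v.comp (X + C (b - 1)) := huv
      rw [h2]
    rw [comp_assoc, comp_assoc] at h1
    simpa using h1
  have haev : ∀ F : MvPolynomial (Fin (n + 1)) L, MvPolynomial.aeval p
      (MvPolynomial.map (algebraMap L La) F) = MvPolynomial.eval₂ (C.comp τ') p F := by
    intro F
    rw [MvPolynomial.aeval_def, MvPolynomial.eval₂_map]
    congr 1
    rw [← hτa']
    rfl
  obtain ⟨p', hp'1, ⟨i1, i2, hp'2⟩, hp'3⟩ := spec_ac La ℂ p
    ((MvPolynomial.map (algebraMap L La)) '' FF) (by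
      rintro _ ⟨F, hF, rfl⟩
      rw [haev, ← hsh, hq F hF, map_zero])
    ⟨i, j, fun h0 => hab (by
      have h1 := congrArg (Polynomial.eval (a - (b - 1))) h0
      rw [eval_mul, eval_mul, eval_C, eval_C, hpe, hpe, hpe, hpe] at h1
      simpa using h1)⟩ (MvPolynomial.map (algebraMap L La) G) (by
      rw [haev, ← hsh]
      intro h0
      exact hne (hshinj (by rw [h0, map_zero])))
  -- back to `ℂ`
  have hback : ∀ F : MvPolynomial (Fin (n + 1)) L,
      MvPolynomial.eval₂ (C.comp τ) (fun j => (p' j).map τa) F =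
        (MvPolynomial.aeval p' (MvPolynomial.map (algebraMap L La) F)).map τa := by
    intro F
    have h1 : MvPolynomial.aeval p' (MvPolynomial.map (algebraMap L La) F) =
        MvPolynomial.eval₂ (C.comp (algebraMap L La)) p' F := by
      rw [MvPolynomial.aeval_def, MvPolynomial.eval₂_map]
      rfl
    rw [h1, comp_map_eval₂, hτa]
  have hc := h (fun j => (p' j).map τa) (fun F hF => by
    rw [hback, hp'1 _ ⟨F, hF, rfl⟩, Polynomial.map_zero]) ⟨G, hG, by
    rw [hback]
    intro h0
    apply hp'3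
    exact (Polynomial.map_injective τa τa.injective) (by rw [h0, Polynomial.map_zero])⟩
  apply hp'2
  rw [← map_const_iff τa]
  apply Polynomial.funext
  intro t
  rw [eval_mul, eval_mul, eval_C, eval_C]
  exact hc i1 i2 t 1

/-- the variety over an extension -/
theorem curIn_map {k L : Type} [Field k] [Field L] {n : ℕ} (φ : k →+* L) (τ : L →+* ℂ)
    (FF GG : Set (MvPolynomial (Fin (n + 1)) k)) :
    CurIn τ (MvPolynomial.map φ '' FF) (MvPolynomial.map φ '' GG) ↔ CurIn (τ.comp φ) FF GG := by
  unfold CurIn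
  refine forall_congr' fun q => ?_
  have h : ∀ F : MvPolynomial (Fin (n + 1)) k,
      MvPolynomial.eval₂ (C.comp τ) q (MvPolynomial.map φ F) =
        MvPolynomial.eval₂ (C.comp (τ.comp φ)) q F := by
    intro F
    rw [MvPolynomial.eval₂_map]
    rfl
  simp only [Set.forall_mem_image, Set.exists_mem_image, h]

/-- curves over fields with an embedding in `ℂ` -/
theorem curIn_curve {L : Type} [Field L] {n : ℕ} (τ : L →+* ℂ)
    (FF GG : Set (MvPolynomial (Fin (n + 1)) L)) (h : CurIn τ FF GG) (q : Fin (n + 1) → L[X])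
    (hq : ∀ F ∈ FF, MvPolynomial.eval₂ C q F = 0) (hG : ∃ G ∈ GG, MvPolynomial.eval₂ C q G ≠ 0)
    (i j : Fin (n + 1)) (a b : L) : (q i).eval a * (q j).eval b = (q j).eval a * (q i).eval b := by
  have h1 : ∀ F : MvPolynomial (Fin (n + 1)) L,
      MvPolynomial.eval₂ (C.comp τ) (fun j => (q j).map τ) F =
        (MvPolynomial.eval₂ C q F).map τ := by
    intro F
    have h2 := comp_map_eval₂ τ (RingHom.id L) q F
    rw [RingHom.comp_id, RingHom.comp_id] at h2
    exact h2.symm
  obtain ⟨G, hG, hne⟩ := hG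
  have h2 := h (fun j => (q j).map τ) (fun F hF => by
    rw [h1, hq F hF, Polynomial.map_zero]) ⟨G, hG, by
    rw [h1]
    intro h0
    exact hne (Polynomial.map_injective τ τ.injective (by rw [h0, Polynomial.map_zero]))⟩
    i j (τ a) (τ b)
  simp only [eval_map, eval₂_at_apply, ← map_mul] at h2
  exact τ.injective h2

end Pool.Agent.N419.HU
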