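import Pool.Agent.N419.HU.Sys

/-!
P-recursive vectors as solutions of systems, with a bound for the size.
-/

set_option autoImplicit false

namespace Pool.Agent.N419.HU

open Polynomial Matrix Pool.Agent.N419.HQ

theorem rec_normal {F : Type} [Field F] {d : ℕ} (p : Fin (d + 1) → F[X]) (hp : p ≠ 0)
    (s : ℕ → F) (h : ∀ m : ℕ, ∑ i : Fin (d + 1), (p i).eval (m : F) * s (m + i) = 0) :
    ∃ e ≤ d, ∃ P : ℕ → F[X], P 0 ≠ 0 ∧ P e ≠ 0 ∧ ∃ N : ℕ, ∀ m ≥ N,
      ∑ t ∈ Finset.range (e + 1), (P t).eval (m : F) * s (m + t) = 0 := by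
  classical
  let q : ℕ → F[X] := fun i => if hi : i < d + 1 then p ⟨i, hi⟩ else 0
  let S : Finset ℕ := (Finset.range (d + 1)).filter fun i => q i ≠ 0
  have hS : S.Nonempty := by
    obtain ⟨i, hi⟩ := Function.ne_iff.1 hp
    refine ⟨i, Finset.mem_filter.2 ⟨Finset.mem_range.2 i.2, ?_⟩⟩
    simp only [q, dif_pos i.2]
    exact hi
  set i0 := S.min' hS with hi0
  set i1 := S.max' hS with hi1
  have h01 : i0 ≤ i1 := Finset.min'_le_max' S hS
  have hi0m := Finset.mem_filter.1 (Finset.min'_mem S hS)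
  have hi1m := Finset.mem_filter.1 (Finset.max'_mem S hS)
  have hi1d : i1 ≤ d := by
    have := Finset.mem_range.1 hi1m.1
    omega
  have hout : ∀ i, q i ≠ 0 → i0 ≤ i ∧ i ≤ i1 := by
    intro i hi
    have him : i ∈ S := by
      refine Finset.mem_filter.2 ⟨?_, hi⟩
      by_contra hcon
      apply hi
      simp only [Finset.mem_range] at hcon
      simp only [q, dif_neg hcon]
    exact ⟨Finset.min'_le S i him, Finset.le_max' S i him⟩
  have hcinj : ∀ f : F[X], f ≠ 0 → f.comp (X - C (i0 : F)) ≠ 0 := by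
    intro f hf h0
    apply hf
    have h1 : (f.comp (X - C (i0 : F))).comp (X + C (i0 : F)) = 0 := by rw [h0, zero_comp]
    rw [comp_assoc] at h1
    simpa using h1
  refine ⟨i1 - i0, by omega, fun t => (q (i0 + t)).comp (X - C (i0 : F)), ?_, ?_, i0, ?_⟩
  · exact hcinj _ hi0m.2
  · have : i0 + (i1 - i0) = i1 := by omega
    simp only [this]
    exact hcinj _ hi1m.2
  · intro m hm
    obtain ⟨m, rfl⟩ : ∃ m', m = i0 + m' := ⟨m - i0, by omega⟩
    have h1 := h m
    have h2 : ∑ i : Fin (d + 1), (p i).eval (m : F) * s (m + i) =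
        ∑ i ∈ Finset.range (d + 1), (q i).eval (m : F) * s (m + i) := by
      rw [Finset.sum_range]
      refine Finset.sum_congr rfl fun i _ => ?_
      simp only [q, dif_pos i.2]
    rw [h2] at h1
    have h3 : ∑ i ∈ Finset.range (d + 1), (q i).eval (m : F) * s (m + i) =
        ∑ i ∈ Finset.Ico i0 (i1 + 1), (q i).eval (m : F) * s (m + i) := by
      symm
      refine Finset.sum_subset ?_ ?_
      · intro i hi
        have := Finset.mem_Ico.1 hi
        exact Finset.mem_range.2 (by omega)
      · intro i _ hi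
        have h4 : q i = 0 := by
          by_contra h5
          have := hout i h5
          exact hi (Finset.mem_Ico.2 (by omega))
        rw [h4, eval_zero, zero_mul]
    rw [h3, Finset.sum_Ico_eq_sum_range] at h1
    have h4 : i1 + 1 - i0 = i1 - i0 + 1 := by omega
    rw [h4] at h1
    rw [← h1]
    refine Finset.sum_congr rfl fun t _ => ?_
    rw [eval_comp, eval_sub, eval_X, eval_C]
    have h5 : ((i0 + m : ℕ) : F) - (i0 : F) = (m : F) := by
      push_cast
      ring
    rw [h5]
    congr 2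
    omega

theorem prec_le (F : Type) [Field F] [CharZero F] (n d : ℕ) (x : ℕ → Fin n → F)
    (hx : ∀ j, ∃ p : Fin (d + 1) → F[X], p ≠ 0 ∧
      ∀ m : ℕ, ∑ i : Fin (d + 1), (p i).eval (m : F) * x (m + i) j = 0) :
    ∃ (N r : ℕ) (A : Matrix (Fin r) (Fin r) F[X]) (M : Matrix (Fin n) (Fin r) F)
      (v : Fin r → F) (s : ℕ → F), r ≤ n * d ∧ (∀ m : ℕ, A.det.eval (m : F) ≠ 0) ∧
      (∀ m, s m ≠ 0) ∧ ∀ m, x (N + m) = s m • M.mulVec ((sys A m).mulVec v) := by
  classical
  have hx' : ∀ j, ∃ e ≤ d, ∃ P : ℕ → F[X], P 0 ≠ 0 ∧ P e ≠ 0 ∧ ∃ N : ℕ, ∀ m ≥ N,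
      ∑ t ∈ Finset.range (e + 1), (P t).eval (m : F) * x (m + t) j = 0 := by
    intro j
    obtain ⟨p, hp, h⟩ := hx j
    exact rec_normal p hp (fun m => x m j) h
  choose e he P hP0 hPe N hN using hx'
  choose R hR using fun j => exists_large (P j 0) (hP0 j)
  set N0 : ℕ := Finset.univ.sup (fun j => max (N j) (R j)) with hN0
  have hN0j : ∀ j, N j ≤ N0 ∧ R j ≤ N0 := by
    intro j
    have h1 : max (N j) (R j) ≤ N0 :=
      Finset.le_sup (f := fun j => max (N j) (R j)) (Finset.mem_univ j)
    omega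
  -- shifted polynomials
  let Q : Fin n → ℕ → F[X] := fun j t => (P j t).comp (X + C (N0 : F))
  have hQe : ∀ j t (m : ℕ), (Q j t).eval (m : F) = (P j t).eval ((N0 + m : ℕ) : F) := by
    intro j t m
    simp only [Q]
    rw [eval_comp, eval_add, eval_X, eval_C]
    push_cast
    rw [add_comm]
  have hQ0 : ∀ j, Q j (e j) ≠ 0 := by
    intro j h0
    apply hPe j
    have h1 : ((P j (e j)).comp (X + C (N0 : F))).comp (X - C (N0 : F)) = 0 := by
      have : (P j (e j)).comp (X + C (N0 : F)) = 0 := h0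
      rw [this, zero_comp]
    rw [comp_assoc] at h1
    simpa using h1
  let ι : Type := Σ j : Fin n, Fin (e j)
  let D : F[X] := ∏ j, Q j (e j)
  let D' : Fin n → F[X] := fun j => ∏ j' ∈ Finset.univ.erase j, Q j' (e j')
  have hDD' : ∀ j, D = Q j (e j) * D' j := fun j =>
    (Finset.mul_prod_erase Finset.univ (fun j => Q j (e j)) (Finset.mem_univ j)).symm
  have hD0 : D ≠ 0 := Finset.prod_ne_zero_iff.2 fun j _ => hQ0 j
  -- the matrix
  let A0 : Matrix ι ι F[X] := Matrix.of fun a b =>
    if a.1 = b.1 then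
      (if (a.2 : ℕ) + 1 < e a.1 then (if (b.2 : ℕ) = a.2 + 1 then D else 0)
        else - (Q a.1 b.2 * D' a.1))
    else 0
  let u0 : ℕ → ι → F := fun m a => x (N0 + m + a.2) a.1
  have hsum : ∀ (w : ι → F) (m : ℕ) (a : ι),
      ((A0.map fun p => p.eval (m : F)).mulVec w) a =
        if (a.2 : ℕ) + 1 < e a.1 then
          (if h : (a.2 : ℕ) + 1 < e a.1 then D.eval (m : F) * w ⟨a.1, ⟨a.2 + 1, h⟩⟩ else 0)
        else - ∑ t : Fin (e a.1), (Q a.1 t).eval (m : F) * (D' a.1).eval (m : F) * w ⟨a.1, t⟩ := by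
    rintro w m ⟨j, t⟩
    simp only [Matrix.mulVec, dotProduct, Matrix.map_apply, A0, Matrix.of_apply]
    rw [Fintype.sum_sigma]
    rw [Finset.sum_eq_single j]
    · simp only [if_true]
      by_cases ht : (t : ℕ) + 1 < e j
      · simp only [if_pos ht, dif_pos ht]
        rw [Finset.sum_eq_single (⟨t + 1, ht⟩ : Fin (e j))]
        · simp
        · intro b _ hb
          rw [if_neg, eval_zero, zero_mul]
          intro h
          exact hb (Fin.ext h)
        · intro h
          exact absurd (Finset.mem_univ _) h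
      · simp only [if_neg ht, eval_neg, eval_mul, neg_mul, Finset.sum_neg_distrib]
    · intro j' _ hj'
      refine Finset.sum_eq_zero fun b _ => ?_
      rw [if_neg (Ne.symm hj'), eval_zero, zero_mul]
    · intro h
      exact absurd (Finset.mem_univ _) h
  -- the system
  have hu0 : ∀ m : ℕ, D.eval (m : F) • u0 (m + 1) =
      (A0.map fun p => p.eval (m : F)).mulVec (u0 m) := by
    intro m
    ext a
    rw [hsum]
    rcases a with ⟨j, t⟩
    by_cases ht : (t : ℕ) + 1 < e j
    · simp only [if_pos ht, dif_pos ht, Pi.smul_apply, smul_eq_mul, u0]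
      congr 2
      omega
    · simp only [if_neg ht, Pi.smul_apply, smul_eq_mul, u0]
      have ht' : (t : ℕ) + 1 = e j := by
        have := t.2
        omega
      have h1 := hN j (N0 + m) (by have := (hN0j j).1; omega)
      rw [Finset.sum_range_succ, Finset.sum_range] at h1
      have h2 : ∑ t : Fin (e j), (Q j t).eval (m : F) * (D' j).eval (m : F) *
          x (N0 + m + t) j = (D' j).eval (m : F) *
          ∑ t : Fin (e j), (P j t).eval ((N0 + m : ℕ) : F) * x (N0 + m + t) j := by
        rw [Finset.mul_sum]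
        refine Finset.sum_congr rfl fun t _ => ?_
        rw [hQe]
        ring
      rw [h2, hDD' j, eval_mul, hQe]
      have h3 : N0 + (m + 1) + (t : ℕ) = N0 + m + e j := by omega
      rw [h3]
      linear_combination (D' j).eval (m : F) * h1
  -- the determinant
  have hdet0 : A0.det ≠ 0 := by
    obtain ⟨N1, hN1⟩ := exists_large D hD0
    intro h0
    have h1 : (A0.map fun p => p.eval (N1 : F)).det = 0 := by
      have h2 := RingHom.map_det (evalRingHom (N1 : F)) A0
      rw [h0, map_zero] at h2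
      exact h2.symm
    obtain ⟨w, hw0, hw⟩ := Matrix.exists_mulVec_eq_zero_iff.2 h1
    apply hw0
    have hDN := hN1 N1 le_rfl
    have hz1 : ∀ (j : Fin n) (t : Fin (e j)), 0 < (t : ℕ) → w ⟨j, t⟩ = 0 := by
      intro j t ht
      have ht2 := t.2
      have h2 := congrFun hw ⟨j, ⟨t - 1, by omega⟩⟩
      rw [hsum] at h2
      have h3 : (t : ℕ) - 1 + 1 < e j := by omega
      simp only [if_pos h3, dif_pos h3, Pi.zero_apply] at h2
      have h4 := (mul_eq_zero.1 h2).resolve_left hDN
      have h5 : (⟨(t : ℕ) - 1 + 1, h3⟩ : Fin (e j)) = t := Fin.ext (by simp only; omega)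
      rw [h5] at h4
      exact h4
    ext ⟨j, t⟩
    by_cases ht : 0 < (t : ℕ)
    · exact hz1 j t ht
    · have hej : 0 < e j := by have := t.2; omega
      have h2 := congrFun hw ⟨j, ⟨e j - 1, by omega⟩⟩
      rw [hsum] at h2
      have h3 : ¬ e j - 1 + 1 < e j := by omega
      simp only [if_neg h3, Pi.zero_apply, neg_eq_zero] at h2
      rw [Finset.sum_eq_single t] at h2
      · have h4 : D.eval (N1 : F) ≠ 0 := hDN
        rw [hDD' j, eval_mul] at h4
        have h5 : (D' j).eval (N1 : F) ≠ 0 := right_ne_zero_of_mul h4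
        have h6 : (Q j t).eval (N1 : F) ≠ 0 := by
          have ht0 : (t : ℕ) = 0 := by omega
          rw [ht0, hQe]
          exact hR j _ (by have := (hN0j j).2; omega)
        exact (mul_eq_zero.1 h2).resolve_left (mul_ne_zero h6 h5)
      · intro b _ hb
        rw [hz1 j b, mul_zero]
        by_contra hcon
        exact hb (Fin.ext (by omega))
      · intro h
        exact absurd (Finset.mem_univ _) h
  -- the size
  let f : Fin (Fintype.card ι) ≃ ι := (Fintype.equivFin ι).symm
  have hcard : Fintype.card ι ≤ n * d := by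
    rw [Fintype.card_sigma]
    simp only [Fintype.card_fin]
    refine (Finset.sum_le_card_nsmul Finset.univ e d fun j _ => he j).trans ?_
    simp
  obtain ⟨N1, A', v, s, hA', hs, hus⟩ := u_sys F (Fintype.card ι) D (A0.submatrix f f)
    (fun m a => u0 m (f a)) hD0 (by
      rw [Matrix.det_submatrix_equiv_self]
      exact hdet0) (by
      intro m
      ext a
      have h1 := congrFun (hu0 m) (f a)
      simp only [Pi.smul_apply] at h1 ⊢
      rw [h1]
      simp only [Matrix.mulVec, dotProduct, Matrix.map_apply, Matrix.submatrix_apply]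
      exact (Equiv.sum_comp f (fun b => (A0 (f a) b).eval (m : F) * u0 m b)).symm)
  let M : Matrix (Fin n) (Fin (Fintype.card ι)) F := Matrix.of fun j a =>
    if (f a).1 = j ∧ ((f a).2 : ℕ) = 0 then 1 else 0
  refine ⟨N0 + N1, Fintype.card ι, A', M, v, s, hcard, hA', hs, fun m => ?_⟩
  rw [← Matrix.mulVec_smul, ← hus]
  ext j
  simp only [Matrix.mulVec, dotProduct, M, Matrix.of_apply]
  rw [Equiv.sum_comp f (fun b : ι => (if b.1 = j ∧ (b.2 : ℕ) = 0 then (1 : F) else 0) *
    u0 (N1 + m) b)]
  by_cases hej : 0 < e j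
  · rw [Finset.sum_eq_single (⟨j, ⟨0, hej⟩⟩ : ι)]
    · simp [u0, Nat.add_assoc]
    · rintro ⟨j', t⟩ _ hb
      rw [if_neg, zero_mul]
      rintro ⟨rfl, ht⟩
      apply hb
      congr 1
      exact Fin.ext ht
    · intro h
      exact absurd (Finset.mem_univ _) h
  · rw [Finset.sum_eq_zero]
    · have he0 : e j = 0 := by omega
      have h1 := hN j (N0 + N1 + m) (by have := (hN0j j).1; omega)
      rw [he0, Finset.sum_range_one, Nat.add_zero] at h1
      exact (mul_eq_zero.1 h1).resolve_left (hR j _ (by have := (hN0j j).2; omega))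
    · rintro ⟨j', t⟩ _
      rw [if_neg, zero_mul]
      rintro ⟨rfl, -⟩
      exact hej (lt_of_le_of_lt (Nat.zero_le _) t.2)

end Pool.Agent.N419.HU
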