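import Pool.Agent.N419.HU.Orb
import Pool.Agent.N419.HU.Prec

/-!
P-recursive sequences: assembly.
-/

set_option autoImplicit false

namespace Pool.Agent.N419.HU

open Polynomial Matrix Pool.Agent.TH717.GO Pool.Agent.Y377.ST Pool.Agent.N419.HQ

theorem rec_pad {F : Type} [Field F] {d' d : ℕ} (h : d' ≤ d) (s : ℕ → F)
    (hs : ∃ p : Fin (d' + 1) → F[X], p ≠ 0 ∧
      ∀ m : ℕ, ∑ i : Fin (d' + 1), (p i).eval (m : F) * s (m + i) = 0) :
    ∃ p : Fin (d + 1) → F[X], p ≠ 0 ∧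
      ∀ m : ℕ, ∑ i : Fin (d + 1), (p i).eval (m : F) * s (m + i) = 0 := by
  obtain ⟨p, hp, hp2⟩ := hs
  refine ⟨fun i => if hi : (i : ℕ) < d' + 1 then p ⟨i, hi⟩ else 0, ?_, fun m => ?_⟩
  · intro h0
    apply hp
    ext1 i
    have h1 := congrFun h0 ⟨i, by omega⟩
    simp only [i.2, dif_pos] at h1
    exact h1
  · have h1 := hp2 m
    rw [← h1]
    let g : ℕ → F := fun i => (if hi : i < d' + 1 then p ⟨i, hi⟩ else 0).eval (m : F) * s (m + i)
    have h2 : ∀ D, ∑ i : Fin D, g i = ∑ i ∈ Finset.range D, g i := fun D =>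
      Fin.sum_univ_eq_sum_range g D
    have h3 : ∑ i : Fin (d' + 1), (p i).eval (m : F) * s (m + i) = ∑ i : Fin (d' + 1), g i := by
      refine Finset.sum_congr rfl fun i _ => ?_
      simp only [g, i.2, dif_pos]
    rw [h3]
    change ∑ i : Fin (d + 1), g i = ∑ i : Fin (d' + 1), g i
    rw [h2 (d + 1), h2 (d' + 1)]
    symm
    refine Finset.sum_subset (Finset.range_subset_range.2 (by omega)) ?_
    intro i _ hi
    simp only [Finset.mem_range] at hi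
    simp only [g, hi, dif_neg, not_false_eq_true, eval_zero, zero_mul]

theorem u_prec : S_prec := by
  intro F _ _ n x hx
  choose d hd using hx
  obtain ⟨N, r, A, M, v, s, -, h⟩ := prec_le F n (Finset.univ.sup d) x fun j =>
    rec_pad (Finset.le_sup (Finset.mem_univ j)) (fun m => x m j) (hd j)
  exact ⟨N, r, A, M, v, s, h⟩

/-- the uniform bound for P-recursive sequences -/
theorem seq_all (n d t : ℕ) : ∃ B : ℕ, ∀ (K : Type) [Field K] [NumberField K]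
    (FF : Set (MvPolynomial (Fin (n + 1)) K)), (∀ F ∈ FF, ∃ m ≤ d, F.IsHomogeneous m) →
    ∀ σ : K →+* ℂ, NoRatC σ FF → ∀ x : ℕ → Fin (n + 1) → K,
      (∀ j, ∃ p : Fin (t + 1) → K[X], p ≠ 0 ∧
        ∀ m : ℕ, ∑ i : Fin (t + 1), (p i).eval (m : K) * x (m + i) j = 0) →
      (∃ N : ℕ, ∀ m ≥ N, ∀ F ∈ FF, MvPolynomial.eval (x m) F = 0) →
      ∃ c : Fin B → Fin (n + 1) → K, ∃ T : ℕ, 1 ≤ T ∧ ∀ a : ℕ, ∃ i, ∃ N : ℕ, ∀ m ≥ N,
        m % T = a % T → ∃ s : K, x m = s • c i := by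
  classical
  choose Bf hBf using fun r => bound_all n d r
  set B := (Finset.range ((n + 1) * t + 1)).sup Bf with hB
  refine ⟨B, fun K _ _ FF hFF σ hno x hx hX => ?_⟩
  obtain ⟨N, r, A, M, v, s, hr, hA, hs, hxs⟩ := prec_le K (n + 1) t x hx
  obtain ⟨N0, hN0⟩ := hX
  have hle : Bf r ≤ B := Finset.le_sup (Finset.mem_range.2 (by omega))
  obtain ⟨c, T, hT, hc⟩ := (hBf r).2 K FF hFF σ hno A hA M v ⟨N0, fun m hm F hF => by
    obtain ⟨e, -, he⟩ := hFF F hF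
    have h1 := hN0 (N + m) (by omega) F hF
    rw [hxs, ← MvPolynomial.coe_aeval_eq_eval, RingHom.coe_coe, fin_aeval_smul F he] at h1
    rw [← MvPolynomial.coe_aeval_eq_eval, RingHom.coe_coe]
    exact (mul_eq_zero.1 h1).resolve_left (pow_ne_zero e (hs m))⟩
  refine ⟨fun i => if hi : (i : ℕ) < Bf r then c ⟨i, hi⟩ else 0, T, hT, fun a => ?_⟩
  obtain ⟨i, N1, hN1⟩ := hc (a + N * (T - 1))
  refine ⟨⟨i, lt_of_lt_of_le i.2 hle⟩, N + N1, fun m hm hma => ?_⟩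
  obtain ⟨m, rfl⟩ : ∃ m', m = N + m' := ⟨m - N, by omega⟩
  obtain ⟨t', ht'⟩ := hN1 m (by omega) (fin_class hT hma)
  refine ⟨s m * t', ?_⟩
  simp only [i.2, dif_pos]
  rw [hxs, ht', smul_smul]

end Pool.Agent.N419.HU
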