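import Pool.Agent.N419.HQ.Fin
import Pool.Agent.N419.HU.Cur

/-!
P-recursive sequences: bounds uniform in the variety.
-/

set_option autoImplicit false

namespace Pool.Agent.N419.HU

open Polynomial Matrix Pool.Agent.TH717.GO Pool.Agent.Y377.ST Pool.Agent.N419.HQ

theorem noRatC_iff {k : Type} [Field k] {n : ℕ} (σ : k →+* ℂ)
    (FF : Set (MvPolynomial (Fin (n + 1)) k)) : NoRatC σ FF ↔ CurIn σ FF {1} := by
  unfold NoRatC CurIn
  refine forall_congr' fun q => forall_congr' fun _ => ?_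
  constructor
  · intro h _
    exact h
  · intro h
    refine h ⟨1, rfl, ?_⟩
    rw [MvPolynomial.eval₂_one]
    exact one_ne_zero

theorem orbB_all (n d r : ℕ) : ∃ B : ℕ, 1 ≤ B ∧ ∀ (K : Type) [Field K] (τ : K →+* ℂ)
    (FF : Set (MvPolynomial (Fin (n + 1)) K)), (∀ F ∈ FF, ∃ m ≤ d, F.IsHomogeneous m) →
    CurIn τ FF {1} → OrbB ((MvPolynomial.map τ) '' FF) 1 r B := by
  classical
  obtain ⟨B, hB⟩ := uniform_all n d 1 r 1
  refine ⟨B + 1, by omega, ?_⟩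
  intro K _ τ FF hFF hcur E _ _ emb H _ ρ M v hX
  have hmap1 : (MvPolynomial.map ((algebraMap ℂ E).comp τ)) ''
      ({1} : Set (MvPolynomial (Fin (n + 1)) K)) = {1} := by
    rw [Set.image_singleton, map_one]
  have h1 := hB E emb ((MvPolynomial.map ((algebraMap ℂ E).comp τ)) '' FF) {1} (by
    rintro _ ⟨F, hF, rfl⟩
    obtain ⟨m, hm, h3⟩ := hFF F hF
    exact ⟨m, hm, h3.map _⟩) (by
    rintro _ rfl
    exact ⟨0, Nat.zero_le _, MvPolynomial.isHomogeneous_one _ _⟩) (by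
    rw [← hmap1, curIn_map]
    exact curIn_indep τ _ FF {1} hcur) H (orb M ρ v) (iterVec_orb M ρ v) (by
    rintro h _ ⟨F, hF, rfl⟩
    have h2 := hX h (MvPolynomial.map τ F) ⟨F, hF, rfl⟩
    rw [MvPolynomial.aeval_def, MvPolynomial.eval₂_map] at h2
    rw [MvPolynomial.eval_map]
    exact h2)
  have hfin : (offPts {1} (orb M ρ v)).Finite := Set.finite_of_encard_le_coe h1
  have hcard : hfin.toFinset.card ≤ B := by
    rw [hfin.encard_eq_coe_toFinset_card] at h1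
    exact_mod_cast h1
  let e := hfin.toFinset.equivFin
  refine ⟨fun i => if hi : (i : ℕ) < hfin.toFinset.card then
    (((e.symm ⟨i, hi⟩ : hfin.toFinset) : Projectivization E (Fin (n + 1) → E))).rep else 0, ?_⟩
  intro h
  right
  by_cases h0 : orb M ρ v h = 0
  · exact ⟨0, 0, by rw [zero_smul]; exact h0⟩
  · have hm : Projectivization.mk E (orb M ρ v h) h0 ∈ hfin.toFinset := by
      rw [Set.Finite.mem_toFinset]
      exact ⟨h, h0, ⟨1, rfl, by rw [map_one]; exact one_ne_zero⟩, rfl⟩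
    have hlt : ((e ⟨_, hm⟩ : Fin _) : ℕ) < hfin.toFinset.card := (e ⟨_, hm⟩).2
    refine ⟨⟨(e ⟨_, hm⟩ : Fin _), by omega⟩, ?_⟩
    simp only [hlt, dif_pos]
    have h2 : e.symm ⟨((e ⟨_, hm⟩ : Fin _) : ℕ), hlt⟩ = ⟨_, hm⟩ := by
      have : (⟨((e ⟨_, hm⟩ : Fin _) : ℕ), hlt⟩ : Fin hfin.toFinset.card) = e ⟨_, hm⟩ := rfl
      rw [this, Equiv.symm_apply_apply]
    rw [h2]
    obtain ⟨a, ha⟩ := Projectivization.exists_smul_eq_mk_rep E (orb M ρ v h) h0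
    refine ⟨((a⁻¹ : Eˣ) : E), ?_⟩
    change orb M ρ v h = _
    rw [← ha, Units.smul_def, smul_smul, Units.inv_mul, one_smul]

/-- the uniform bound for systems without singular points -/
theorem bound_all (n d r : ℕ) : ∃ B : ℕ, 1 ≤ B ∧ ∀ (K : Type) [Field K] [NumberField K]
    (FF : Set (MvPolynomial (Fin (n + 1)) K)), (∀ F ∈ FF, ∃ m ≤ d, F.IsHomogeneous m) →
    ∀ σ : K →+* ℂ, NoRatC σ FF →
    ∀ (A : Matrix (Fin r) (Fin r) K[X]), (∀ m : ℕ, A.det.eval (m : K) ≠ 0) →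
      ∀ (M : Matrix (Fin (n + 1)) (Fin r) K) (v : Fin r → K),
      (∃ N : ℕ, ∀ m ≥ N, ∀ F ∈ FF,
        MvPolynomial.eval (M.mulVec ((sys A m).mulVec v)) F = 0) →
      ∃ c : Fin B → Fin (n + 1) → K, ∃ T : ℕ, 1 ≤ T ∧ ∀ a : ℕ, ∃ i, ∃ N : ℕ, ∀ m ≥ N,
        m % T = a % T → ∃ s : K, M.mulVec ((sys A m).mulVec v) = s • c i := by
  obtain ⟨B, hB, hO⟩ := orbB_all n d r
  refine ⟨B, hB, fun K _ _ FF hFF σ hno A hA M v hX => ?_⟩
  have hcur := (noRatC_iff σ FF).1 hno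
  refine main_line (t_core t_null t_spec t_embed t_grp) t_rel t_bd t_desc (t_runs t_hit)
    (t_line t_run t_ap) σ FF ?_ (hO K σ FF hFF hcur) hB ?_ A hA M v hX
  · intro F hF
    obtain ⟨m, -, hm⟩ := hFF F hF
    exact ⟨m, hm⟩
  · intro ρ hρ i j a b
    exact curIn_curve σ FF {1} hcur ρ hρ ⟨1, rfl, by
      rw [MvPolynomial.eval₂_one]
      exact one_ne_zero⟩ i j a b

/-- the uniform bound for systems -/
theorem sys_all (hsys : S_sys) (n d r : ℕ) : ∃ B : ℕ, ∀ (K : Type) [Field K] [NumberField K]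
    (FF : Set (MvPolynomial (Fin (n + 1)) K)), (∀ F ∈ FF, ∃ m ≤ d, F.IsHomogeneous m) →
    ∀ σ : K →+* ℂ, NoRatC σ FF → ∀ (D : K[X])
      (A : Matrix (Fin r) (Fin r) K[X]) (M : Matrix (Fin (n + 1)) (Fin r) K) (u : ℕ → Fin r → K),
      D ≠ 0 → A.det ≠ 0 →
      (∀ m : ℕ, D.eval (m : K) • u (m + 1) = (A.map fun p => p.eval (m : K)).mulVec (u m)) →
      (∃ N : ℕ, ∀ m ≥ N, ∀ F ∈ FF, MvPolynomial.eval (M.mulVec (u m)) F = 0) →
      ∃ c : Fin B → Fin (n + 1) → K, ∃ T : ℕ, 1 ≤ T ∧ ∀ a : ℕ, ∃ i, ∃ N : ℕ, ∀ m ≥ N,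
        m % T = a % T → ∃ s : K, M.mulVec (u m) = s • c i := by
  obtain ⟨B, hB, h⟩ := bound_all n d r
  refine ⟨B, fun K _ _ FF hFF σ hno D A M u hD hA hu hX => ?_⟩
  obtain ⟨N, A', v, s, hA', hs, hus⟩ := hsys K r D A u hD hA hu
  obtain ⟨N0, hN0⟩ := hX
  obtain ⟨c, T, hT, hc⟩ := h K FF hFF σ hno A' hA' M v ⟨N0, fun m hm F hF => by
    obtain ⟨e, -, he⟩ := hFF F hF
    have h1 := hN0 (N + m) (by omega) F hF
    rw [hus, Matrix.mulVec_smul, ← MvPolynomial.coe_aeval_eq_eval, RingHom.coe_coe,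
      fin_aeval_smul F he] at h1
    rw [← MvPolynomial.coe_aeval_eq_eval, RingHom.coe_coe]
    exact (mul_eq_zero.1 h1).resolve_left (pow_ne_zero e (hs m))⟩
  refine ⟨c, T, hT, fun a => ?_⟩
  obtain ⟨i, N1, hN1⟩ := hc (a + N * (T - 1))
  refine ⟨i, N + N1, fun m hm hma => ?_⟩
  obtain ⟨m, rfl⟩ : ∃ m', m = N + m' := ⟨m - N, by omega⟩
  obtain ⟨t, ht⟩ := hN1 m (by omega) (fin_class hT hma)
  refine ⟨s m * t, ?_⟩
  rw [hus, Matrix.mulVec_smul, ht, smul_smul]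

end Pool.Agent.N419.HU
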