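import Mathlib

/-!
Specialisation of curves to an algebraically closed field of definition.
-/

set_option autoImplicit false

namespace Pool.Agent.N419.HU

open Polynomial

theorem map_aeval {k A B : Type} [Field k] [CommRing A] [CommRing B] [Algebra k A] [Algebra k B]
    {n : ℕ} (φ : A →ₐ[k] B) (p : Fin (n + 1) → A[X]) (F : MvPolynomial (Fin (n + 1)) k) :
    (MvPolynomial.aeval p F).map (φ : A →+* B) =
      MvPolynomial.aeval (fun i => (p i).map (φ : A →+* B)) F := by
  have h := MvPolynomial.comp_aeval_apply (f := p) (φ := Polynomial.mapAlgHom φ) F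
  simpa using h

/-- A nonconstant curve over an extension gives a nonconstant curve over `k`. -/
theorem spec_ac (k : Type) [Field k] [IsAlgClosed k] (L : Type) [Field L] [Algebra k L] {n : ℕ}
    (p : Fin (n + 1) → L[X]) (FF : Set (MvPolynomial (Fin (n + 1)) k))
    (hp : ∀ F ∈ FF, MvPolynomial.aeval p F = 0)
    (hc : ∃ i j, p i * C ((p j).eval 1) ≠ p j * C ((p i).eval 1))
    (G : MvPolynomial (Fin (n + 1)) k) (hG : MvPolynomial.aeval p G ≠ 0) :
    ∃ p' : Fin (n + 1) → k[X], (∀ F ∈ FF, MvPolynomial.aeval p' F = 0) ∧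
      (∃ i j, p' i * C ((p' j).eval 1) ≠ p' j * C ((p' i).eval 1)) ∧
      MvPolynomial.aeval p' G ≠ 0 := by
  classical
  obtain ⟨w', hw'⟩ : ∃ w, (MvPolynomial.aeval p G).coeff w ≠ 0 := by
    by_contra h
    push Not at h
    exact hG (Polynomial.ext fun m => by rw [h m, coeff_zero])
  set γ : L := (MvPolynomial.aeval p G).coeff w' with hγ
  obtain ⟨i1, i2, hi⟩ := hc
  obtain ⟨w, hw⟩ : ∃ w, (p i1 * C ((p i2).eval 1) - p i2 * C ((p i1).eval 1)).coeff w ≠ 0 := by
    by_contra h
    push Not at h
    apply hi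
    rw [← sub_eq_zero]
    ext m
    rw [h m, coeff_zero]
  set δ : L := (p i1 * C ((p i2).eval 1) - p i2 * C ((p i1).eval 1)).coeff w with hδ
  let S : Finset L := (Finset.univ.biUnion fun i => (p i).coeffs) ∪ {δ⁻¹, γ⁻¹}
  let R : Subalgebra k L := Algebra.adjoin k (S : Set L)
  have hft : Algebra.FiniteType k R := by
    rw [← Subalgebra.fg_iff_finiteType]
    exact Subalgebra.fg_adjoin_finset S
  have hcR : ∀ i m, (p i).coeff m ∈ R := by
    intro i m
    by_cases h0 : (p i).coeff m = 0
    · rw [h0]; exact R.zero_mem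
    · apply Algebra.subset_adjoin
      simp only [S, Finset.coe_union, Set.mem_union, Finset.mem_coe]
      left
      exact Finset.mem_biUnion.2 ⟨i, Finset.mem_univ _, coeff_mem_coeffs h0⟩
  have hinvR : δ⁻¹ ∈ R := by
    apply Algebra.subset_adjoin
    simp only [S, Finset.coe_union, Set.mem_union, Finset.mem_coe]
    right
    simp
  have hinvR' : γ⁻¹ ∈ R := by
    apply Algebra.subset_adjoin
    simp only [S, Finset.coe_union, Set.mem_union, Finset.mem_coe]
    right
    simp
  have hlift : ∀ i, ∃ q : R[X], q.map (R.val : R →+* L) = p i := by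
    intro i
    have h1 : p i ∈ Polynomial.lifts (R.val : R →+* L) := by
      rw [Polynomial.lifts_iff_coeff_lifts]
      intro m
      exact ⟨⟨_, hcR i m⟩, rfl⟩
    exact (Polynomial.mem_lifts _).1 h1
  choose q hq using hlift
  have hinj : Function.Injective (Polynomial.map (R.val : R →+* L)) :=
    Polynomial.map_injective _ Subtype.val_injective
  have hq0 : ∀ F ∈ FF, MvPolynomial.aeval q F = 0 := by
    intro F hF
    apply hinj
    rw [map_aeval, Polynomial.map_zero]
    simp only [hq]
    exact hp F hF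
  -- a homomorphism to `k`
  obtain ⟨m, hm⟩ := Ideal.exists_maximal R
  let _ : Field (R ⧸ m) := Ideal.Quotient.field m
  let φ0 : R →ₐ[k] (R ⧸ m) := Ideal.Quotient.mkₐ k m
  have hφ0 : Function.Surjective φ0 := Ideal.Quotient.mkₐ_surjective k m
  have hft2 : Algebra.FiniteType k (R ⧸ m) := Algebra.FiniteType.of_surjective φ0 hφ0
  have hfin : Module.Finite k (R ⧸ m) := finite_of_finite_type_of_isJacobsonRing k (R ⧸ m)
  have hbij : Function.Bijective (algebraMap k (R ⧸ m)) :=
    IsAlgClosed.algebraMap_bijective_of_isIntegral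
  let ψ : (R ⧸ m) →ₐ[k] k := ((AlgEquiv.ofBijective (Algebra.ofId k (R ⧸ m)) hbij).symm).toAlgHom
  let φ : R →ₐ[k] k := ψ.comp φ0
  refine ⟨fun i => (q i).map (φ : R →+* k), fun F hF => ?_, ⟨i1, i2, ?_⟩, ?_⟩
  · rw [← map_aeval, hq0 F hF, Polynomial.map_zero]
  · have h1 : ∀ i, (R.val : R →+* L) ((q i).eval 1) = (p i).eval 1 := by
      intro i
      rw [← hq i, ← eval₂_at_apply, map_one, eval_map]
    have h2 : ∀ i, (φ : R →+* k) ((q i).eval 1) = ((q i).map (φ : R →+* k)).eval 1 := by
      intro i
      rw [← eval₂_at_apply, map_one, eval_map]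
    set δR : R := (q i1 * C ((q i2).eval 1) - q i2 * C ((q i1).eval 1)).coeff w with hδR
    have h3 : (R.val : R →+* L) δR = δ := by
      rw [hδR, ← coeff_map, Polynomial.map_sub, Polynomial.map_mul, Polynomial.map_mul,
        Polynomial.map_C, Polynomial.map_C, hq, hq, h1, h1]
    have h4 : δR * ⟨δ⁻¹, hinvR⟩ = 1 := by
      apply Subtype.val_injective
      change (R.val : R →+* L) δR * δ⁻¹ = 1
      rw [h3]
      exact mul_inv_cancel₀ hw
    have h5 : φ δR ≠ 0 := by
      intro h0
      have h6 := congrArg φ h4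
      rw [map_mul, h0, zero_mul, map_one] at h6
      exact zero_ne_one h6
    intro h6
    apply h5
    have h7 : φ δR = ((q i1).map (φ : R →+* k) * C (((q i2).map (φ : R →+* k)).eval 1) -
        (q i2).map (φ : R →+* k) * C (((q i1).map (φ : R →+* k)).eval 1)).coeff w := by
      change (φ : R →+* k) δR = _
      rw [hδR, ← coeff_map, Polynomial.map_sub, Polynomial.map_mul, Polynomial.map_mul,
        Polynomial.map_C, Polynomial.map_C, h2, h2]
    rw [h7, h6, sub_self, coeff_zero]
  · have h4 : (MvPolynomial.aeval q G).coeff w' * ⟨γ⁻¹, hinvR'⟩ = 1 := by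
      apply Subtype.val_injective
      change (R.val : R →+* L) ((MvPolynomial.aeval q G).coeff w') * γ⁻¹ = 1
      rw [← coeff_map, map_aeval]
      simp only [hq]
      exact mul_inv_cancel₀ hw'
    intro h0
    have h5 : φ ((MvPolynomial.aeval q G).coeff w') = 0 := by
      change (φ : R →+* k) _ = 0
      rw [← coeff_map, map_aeval, h0, coeff_zero]
    have h6 := congrArg φ h4
    rw [map_mul, h5, zero_mul, map_one] at h6
    exact zero_ne_one h6

end Pool.Agent.N419.HU
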