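import Pool.Agent.N419.HQ.Stm

/-!
Systems with singular points; subsystems along progressions.
-/

set_option autoImplicit false

namespace Pool.Agent.N419.HU

open Polynomial Matrix Pool.Agent.N419.HQ

theorem exists_large {F : Type} [Field F] [CharZero F] (p : F[X]) (hp : p ≠ 0) :
    ∃ N : ℕ, ∀ m ≥ N, p.eval (m : F) ≠ 0 := by
  classical
  have hfin : {m : ℕ | p.eval (m : F) = 0}.Finite := by
    have := (p.roots.toFinset.finite_toSet).preimage (f := fun m : ℕ => (m : F))
      (Nat.cast_injective.injOn)
    refine this.subset fun m hm => ?_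
    simp only [Set.mem_preimage, Finset.mem_coe, Multiset.mem_toFinset]
    exact (mem_roots hp).2 hm
  obtain ⟨N, hN⟩ := hfin.bddAbove
  refine ⟨N + 1, fun m hm h0 => ?_⟩
  have := hN (show m ∈ {m : ℕ | p.eval (m : F) = 0} from h0)
  omega

theorem u_sys : S_sys := by
  intro F _ _ r D A u hD hA hu
  obtain ⟨N1, hN1⟩ := exists_large D hD
  obtain ⟨N2, hN2⟩ := exists_large A.det hA
  set N := max N1 N2 with hN
  let sh : F[X] →+* F[X] := compRingHom (X + C (N : F))
  have hsh : ∀ (p : F[X]) (m : ℕ), (sh p).eval (m : F) = p.eval ((N + m : ℕ) : F) := by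
    intro p m
    show (p.comp _).eval _ = _
    rw [eval_comp, eval_add, eval_X, eval_C]
    push_cast
    rw [add_comm]
  have hdet : (A.map sh).det = sh A.det := (RingHom.map_det sh A).symm
  refine ⟨N, A.map sh, u N, fun m => ∏ i ∈ Finset.range m, (D.eval ((N + i : ℕ) : F))⁻¹, ?_, ?_, ?_⟩
  · intro m
    rw [hdet, hsh]
    exact hN2 _ (by omega)
  · intro m
    exact Finset.prod_ne_zero_iff.2 fun i _ => inv_ne_zero (hN1 _ (by omega))
  · intro m
    induction m with
    | zero =>
      show u (N + 0) = (∏ i ∈ Finset.range 0, (D.eval ((N + i : ℕ) : F))⁻¹) •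
        (sys (A.map sh) 0).mulVec (u N)
      rw [Finset.prod_range_zero, one_smul, sys, Matrix.one_mulVec, Nat.add_zero]
    | succ m ih =>
      simp only at ih ⊢
      have h1 := hu (N + m)
      have hne : D.eval ((N + m : ℕ) : F) ≠ 0 := hN1 _ (by omega)
      have h2 : u (N + m + 1) = (D.eval ((N + m : ℕ) : F))⁻¹ •
          (A.map fun p => p.eval ((N + m : ℕ) : F)).mulVec (u (N + m)) := by
        rw [← h1, smul_smul, inv_mul_cancel₀ hne, one_smul]
      have h3 : ((A.map sh).map fun p => p.eval (m : F)) =
          A.map fun p => p.eval ((N + m : ℕ) : F) := by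
        ext i j
        simp only [Matrix.map_apply]
        exact hsh _ _
      rw [← Nat.add_assoc, h2, ih, Matrix.mulVec_smul, smul_smul, Finset.prod_range_succ, sys, h3,
        Matrix.mulVec_mulVec, mul_comm]

theorem u_sub : S_sub := by
  intro F _ r A hA T a hT
  -- the products
  let st : ℕ → F[X] →+* F[X] := fun i => compRingHom (C (T : F) * X + C ((a + i : ℕ) : F))
  have hst : ∀ (i : ℕ) (p : F[X]) (m : ℕ),
      (st i p).eval (m : F) = p.eval ((a + T * m + i : ℕ) : F) := by
    intro i p m
    show (p.comp _).eval _ = _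
    rw [eval_comp, eval_add, eval_mul, eval_X, eval_C, eval_C]
    congr 1
    push_cast
    ring
  let Q : ℕ → Matrix (Fin r) (Fin r) F[X] := fun i =>
    Nat.rec 1 (fun i q => A.map (st i) * q) i
  have hQ0 : Q 0 = 1 := rfl
  have hQs : ∀ i, Q (i + 1) = A.map (st i) * Q i := fun i => rfl
  have hmap : ∀ (P : Matrix (Fin r) (Fin r) F[X]) (P' : Matrix (Fin r) (Fin r) F[X]) (m : ℕ),
      (P * P').map (fun p => p.eval (m : F)) =
        P.map (fun p => p.eval (m : F)) * P'.map (fun p => p.eval (m : F)) := by
    intro P P' m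
    exact Matrix.map_mul (f := evalRingHom (m : F))
  have hdet : ∀ i, ∀ m : ℕ, (Q i).det.eval (m : F) ≠ 0 := by
    intro i
    induction i with
    | zero =>
      intro m
      rw [hQ0, Matrix.det_one, eval_one]
      exact one_ne_zero
    | succ i ih =>
      intro m
      rw [hQs, Matrix.det_mul, eval_mul]
      refine mul_ne_zero ?_ (ih m)
      have h1 : (A.map (st i)).det = st i A.det := (RingHom.map_det (st i) A).symm
      rw [h1, hst]
      exact hA _
  have hev : ∀ (i m : ℕ), sys A (a + T * m + i) =
      (Q i).map (fun p => p.eval (m : F)) * sys A (a + T * m) := by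
    intro i m
    induction i with
    | zero =>
      have h1 : (1 : Matrix (Fin r) (Fin r) F[X]).map (fun p => p.eval (m : F)) = 1 :=
        Matrix.map_one (evalRingHom (m : F)) (map_zero _) (map_one _)
      rw [hQ0, Nat.add_zero, h1, Matrix.one_mul]
    | succ i ih =>
      have h1 : (A.map (st i)).map (fun p => p.eval (m : F)) =
          A.map fun p => p.eval ((a + T * m + i : ℕ) : F) := by
        ext i' j'
        simp only [Matrix.map_apply]
        exact hst _ _ _
      rw [← Nat.add_assoc, sys, ih, hQs, hmap, h1, Matrix.mul_assoc]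
  refine ⟨Q T, hdet T, fun m => ?_⟩
  induction m with
  | zero => rw [Nat.mul_zero, Nat.add_zero, sys, Matrix.one_mul]
  | succ m ih =>
    have h1 : a + T * (m + 1) = a + T * m + T := by ring
    rw [h1, hev, ih, sys, Matrix.mul_assoc]

end Pool.Agent.N419.HU
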