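import Mathlib

/-!
The range of a homomorphism from the sequences of complex numbers to the complex numbers.
-/

set_option autoImplicit false

namespace Pool.Agent.N419.HU

open Polynomial

variable (Θ : (ℕ → ℂ) →+* ℂ)

/-- the indicator function of a set -/
noncomputable def ind (S : Set ℕ) : ℕ → ℂ := fun i => by
  classical
  exact if i ∈ S then 1 else 0

theorem ind_mul_self (S : Set ℕ) : ind S * ind S = ind S := by
  funext i
  by_cases h : i ∈ S <;> simp [ind, h]

theorem theta_ind (S : Set ℕ) : Θ (ind S) = 0 ∨ Θ (ind S) = 1 := by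
  have h := congrArg Θ (ind_mul_self S)
  rw [map_mul] at h
  by_cases h0 : Θ (ind S) = 0
  · exact Or.inl h0
  · right
    exact mul_left_cancel₀ h0 (by rw [h, mul_one])

/-- pointwise inverse -/
theorem theta_supp (f : ℕ → ℂ) (hf : Θ f ≠ 0) : Θ (ind {i | f i ≠ 0}) = 1 := by
  have h1 : f * ind {i | f i ≠ 0} = f := by
    funext i
    by_cases h : f i = 0 <;> simp [ind, h]
  rcases theta_ind Θ {i | f i ≠ 0} with h | h
  · exfalso
    apply hf
    rw [← h1, map_mul, h, mul_zero]
  · exact h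

theorem theta_inv (f : ℕ → ℂ) (hf : Θ f ≠ 0) : Θ (fun i => (f i)⁻¹) = (Θ f)⁻¹ := by
  have h1 : f * (fun i => (f i)⁻¹) = ind {i | f i ≠ 0} := by
    funext i
    by_cases h : f i = 0 <;> simp [ind, h]
  have h2 := congrArg Θ h1
  rw [map_mul, theta_supp Θ f hf] at h2
  exact eq_inv_of_mul_eq_one_right h2

/-- the range -/
noncomputable def rng : Subfield ℂ :=
  { Θ.range with
    inv_mem' := by
      rintro _ ⟨f, rfl⟩
      by_cases hf : Θ f = 0
      · exact ⟨0, by simp [hf]⟩
      · exact ⟨fun i => (f i)⁻¹, theta_inv Θ f hf⟩ }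

theorem mem_rng (z : ℂ) : z ∈ rng Θ ↔ ∃ f, Θ f = z := Iff.rfl

/-- `Θ` as a map to its range -/
noncomputable def thr : (ℕ → ℂ) →+* rng Θ := Θ.codRestrict (rng Θ) fun f => ⟨f, rfl⟩

theorem thr_coe (f : ℕ → ℂ) : ((thr Θ f : rng Θ) : ℂ) = Θ f := rfl

theorem thr_surj : Function.Surjective (thr Θ) := by
  rintro ⟨z, f, rfl⟩
  exact ⟨f, rfl⟩

theorem thr_eq_zero (f : ℕ → ℂ) : thr Θ f = 0 ↔ Θ f = 0 := by
  rw [← thr_coe]
  exact Subtype.ext_iff

instance : IsAlgClosed (rng Θ) := by
  refine IsAlgClosed.of_exists_root _ fun p hp hirr => ?_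
  have hdeg : 0 < p.natDegree := hirr.natDegree_pos
  -- lift the coefficients
  choose c hc using fun m => thr_surj Θ (p.coeff m)
  set D := p.natDegree with hD
  let P : ℕ → ℂ[X] := fun i => X ^ D + ∑ m ∈ Finset.range D, C (c m i) * X ^ m
  have hlt : ∀ i, (∑ m ∈ Finset.range D, C (c m i) * X ^ m : ℂ[X]).degree < (D : WithBot ℕ) := by
    intro i
    refine lt_of_le_of_lt (degree_sum_le _ _) ?_
    refine (Finset.sup_lt_iff (WithBot.bot_lt_coe D)).2 ?_
    intro m hm
    exact lt_of_le_of_lt (degree_C_mul_X_pow_le m _)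
      (WithBot.coe_lt_coe.2 (Finset.mem_range.1 hm))
  have hPd : ∀ i, (P i).degree = D := by
    intro i
    exact degree_add_eq_left_of_degree_lt (by rw [degree_X_pow]; exact hlt i) |>.trans
      (degree_X_pow D)
  have hroot : ∀ i, ∃ z : ℂ, (P i).eval z = 0 := by
    intro i
    refine IsAlgClosed.exists_root (P i) ?_
    rw [hPd]
    exact_mod_cast hdeg.ne'
  choose z hz using hroot
  refine ⟨thr Θ z, ?_⟩
  have h1 : z ^ D + ∑ m ∈ Finset.range D, c m * z ^ m = 0 := by
    funext i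
    have h2 := hz i
    simp only [P, eval_add, eval_pow, eval_X, eval_finsetSum, eval_mul, eval_C] at h2
    simpa using h2
  have h3 := congrArg (thr Θ) h1
  rw [map_zero, map_add, map_pow, map_sum] at h3
  rw [eval_eq_sum_range, ← hD, Finset.sum_range_succ]
  have h4 : p.coeff D = 1 := hp
  rw [h4, one_mul, add_comm, ← h3]
  congr 1
  refine Finset.sum_congr rfl fun m _ => ?_
  rw [map_mul, map_pow, hc]

end Pool.Agent.N419.HU
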