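import Pool.Agent.Y377.ST.Conv
import Pool.Agent.TH409.SH.Fin2
import Pool.Agent.N419.HU.Spec
import Pool.Agent.N419.HU.Theta

/-!
Bounds for the number of points of families given by iterated recurrences, uniform in the variety.
-/

set_option autoImplicit false

namespace Pool.Agent.N419.HU

open MvPolynomial Pool.Agent.Y377.EL Pool.Agent.Y377.IL Pool.Agent.Y377.IR Pool.Agent.Y377.ST
  Pool.Agent.H533R3.SL

/-- all curves over `ℂ` on the variety of `FF`, embedded by `τ`, which are not contained in the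
variety of `GG`, are constant -/
def CurIn {L : Type} [Field L] {n : ℕ} (τ : L →+* ℂ) (FF GG : Set (MvPolynomial (Fin (n + 1)) L)) :
    Prop :=
  ∀ q : Fin (n + 1) → Polynomial ℂ, (∀ F ∈ FF, eval₂ (Polynomial.C.comp τ) q F = 0) →
    (∃ G ∈ GG, eval₂ (Polynomial.C.comp τ) q G ≠ 0) →
    ∀ i j (a b : ℂ), (q i).eval a * (q j).eval b = (q j).eval a * (q i).eval b

/-- the points with the homogeneous coordinates `x(h) ≠ 0` outside of the variety of `GG` -/
def offPts {L H : Type} [Field L] {n : ℕ} (GG : Set (MvPolynomial (Fin (n + 1)) L))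
    (x : H → Fin (n + 1) → L) : Set (Projectivization L (Fin (n + 1) → L)) :=
  {P | ∃ (h : H) (h0 : x h ≠ 0), (∃ G ∈ GG, eval (x h) G ≠ 0) ∧
    P = Projectivization.mk L (x h) h0}

/-- different points -/
theorem exists_seqB {n s r e : ℕ} {L : Type} [Field L] (τ : L →+* ℂ)
    {FF GG : Set (MvPolynomial (Fin (n + 1)) L)}
    {H : Type} [Group H] {x : H → Fin (n + 1) → L} (hx : IterVec s r e x)
    (hF : ∀ h, ∀ F ∈ FF, eval (x h) F = 0) {B : ℕ} (hB : ¬ (offPts GG x).encard ≤ (B : ℕ∞)) :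
    ∃ (H : Type) (_ : Group H) (x : H → Fin (n + 1) → ℂ), IterVec s r e x ∧
      (∀ h, ∀ F ∈ FF, eval (x h) (map τ F) = 0) ∧ ∃ (hs : ℕ → H)
        (G : ℕ → MvPolynomial (Fin (n + 1)) L), (∀ i, G i ∈ GG) ∧
        (∀ i, eval (x (hs i)) (map τ (G i)) ≠ 0) ∧ (∀ i, x (hs i) ≠ 0) ∧
        ∀ i j, i ≤ B → j ≤ B → i ≠ j →
          ∃ u v, x (hs i) u * x (hs j) v ≠ x (hs i) v * x (hs j) u := by
  classical
  have hev : ∀ h F, eval (fun j => τ (x h j)) (map τ F) = τ (eval (x h) F) := fun h F => by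
    rw [eval_map]
    exact (eval₂_comp_left τ (RingHom.id L) (x h) F).symm
  have h1 : ((B + 1 : ℕ) : ℕ∞) ≤ (offPts GG x).encard := by
    rw [Nat.cast_add, Nat.cast_one]
    exact Order.add_one_le_of_lt (not_le.1 hB)
  obtain ⟨t, hts, htc⟩ := Set.exists_subset_encard_eq h1
  have htf : t.Finite := Set.finite_of_encard_eq_coe htc
  have hcard : htf.toFinset.card = B + 1 := by
    have h2 := htf.encard_eq_coe_toFinset_card
    rw [htc] at h2
    exact_mod_cast h2.symm
  let P : Fin (B + 1) ≃ htf.toFinset := (Finset.equivFinOfCardEq hcard).symm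
  have hP : ∀ i : Fin (B + 1), ((P i : htf.toFinset) : Projectivization L (Fin (n + 1) → L)) ∈
      offPts GG x := fun i => hts (htf.mem_toFinset.1 (P i).2)
  choose hs0 h0 hG hPe using hP
  choose G0 hG0 hG1 using hG
  let c : ℕ → Fin (B + 1) := fun i => if hi : i < B + 1 then ⟨i, hi⟩ else 0
  refine ⟨H, inferInstance, fun h j => τ (x h j), hx.map τ, ?_,
    fun i => hs0 (c i), fun i => G0 (c i), fun i => hG0 _, ?_, ?_, ?_⟩
  · intro h F hFF
    rw [hev, hF h F hFF, map_zero]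
  · intro i h2
    rw [hev] at h2
    exact hG1 (c i) ((map_eq_zero τ).1 h2)
  · intro i h2
    apply h0 (c i)
    funext j
    have h3 := congrFun h2 j
    exact (map_eq_zero τ).1 h3
  · intro i j hi hj hij
    have hci : c i = ⟨i, by omega⟩ := dif_pos (by omega)
    have hcj : c j = ⟨j, by omega⟩ := dif_pos (by omega)
    have hcij : c i ≠ c j := by
      rw [hci, hcj]
      intro h2
      exact hij (Fin.mk.inj_iff.1 h2)
    by_contra hcon
    push Not at hcon
    apply hcij
    apply P.injective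
    apply Subtype.ext
    rw [hPe (c i), hPe (c j), Projectivization.mk_eq_mk_iff']
    obtain ⟨v0, hv0⟩ := Function.ne_iff.1 (h0 (c j))
    have hv0' : x (hs0 (c j)) v0 ≠ 0 := hv0
    refine ⟨x (hs0 (c i)) v0 / x (hs0 (c j)) v0, ?_⟩
    funext u
    rw [Pi.smul_apply, smul_eq_mul]
    have h2 := hcon u v0
    rw [← map_mul, ← map_mul] at h2
    have h3 := τ.injective h2
    rw [div_mul_eq_mul_div, ← h3, mul_div_assoc, div_self hv0', mul_one]

/-- forms of the same degree as one form over the ring of sequences -/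
theorem limit_form {n : ℕ} (F : ℕ → MvPolynomial (Fin (n + 1)) ℂ) (e : ℕ)
    (hF : ∀ i, (F i).IsHomogeneous e) :
    ∃ FA : MvPolynomial (Fin (n + 1)) (ℕ → ℂ), FA.IsHomogeneous e ∧
      ∀ i, map (Pi.evalRingHom (fun _ : ℕ => ℂ) i) FA = F i := by
  classical
  let D : Finset (Fin (n + 1) →₀ ℕ) := Finset.univ.finsuppAntidiag e
  refine ⟨∑ α ∈ D, monomial α (fun i => coeff α (F i)), ?_, fun i => ?_⟩
  · refine IsHomogeneous.sum _ _ _ fun α hα => isHomogeneous_monomial _ ?_
    have h1 := (Finset.mem_finsuppAntidiag.1 hα).1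
    rw [Finsupp.degree_eq_sum]
    exact h1
  · rw [map_sum]
    ext β
    rw [coeff_sum]
    simp only [map_monomial, coeff_monomial]
    by_cases hβ : β ∈ D
    · rw [Finset.sum_eq_single β]
      · rw [if_pos rfl]
        rfl
      · intro α _ hα
        rw [if_neg hα]
      · intro h
        exact absurd hβ h
    · rw [Finset.sum_eq_zero]
      · by_contra hne
        apply hβ
        have h1 := hF i (Ne.symm hne)
        refine Finset.mem_finsuppAntidiag.2 ⟨?_, fun _ _ => Finset.mem_univ _⟩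
        rw [← h1, Finsupp.weight_apply, Finsupp.sum_fintype _ _ (fun _ => by simp)]
        simp
      · intro α hα
        rw [if_neg]
        rintro rfl
        exact hβ hα

theorem ev_hom {A B : Type} [CommRing A] [CommRing B] {n : ℕ} (ψ : A →+* B)
    (v : Fin (n + 1) → A) (F : MvPolynomial (Fin (n + 1)) A) :
    ψ (eval v F) = eval (fun j => ψ (v j)) (map ψ F) := by
  rw [eval_map]
  exact eval₂_comp_left ψ (RingHom.id A) v F

theorem pol_hom {A B : Type} [CommRing A] [CommRing B] {n : ℕ} (ψ : A →+* B)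
    (p : Fin (n + 1) → Polynomial A) (F : MvPolynomial (Fin (n + 1)) A) :
    (eval₂ Polynomial.C p F).map ψ =
      eval₂ Polynomial.C (fun j => (p j).map ψ) (map ψ F) := by
  rw [eval₂_map]
  have h := eval₂_comp_left (Polynomial.mapRingHom ψ) Polynomial.C p F
  have h2 : (Polynomial.mapRingHom ψ).comp Polynomial.C = Polynomial.C.comp ψ := by
    ext z
    simp
  rw [h2] at h
  exact h

theorem eval_at {A : Type} [CommRing A] {n : ℕ} (p : Fin (n + 1) → Polynomial A)
    (F : MvPolynomial (Fin (n + 1)) A) (t : A) :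
    (eval₂ Polynomial.C p F).eval t = eval (fun j => (p j).eval t) F := by
  have h := eval₂_comp_left (Polynomial.evalRingHom t) Polynomial.C p F
  have h2 : (Polynomial.evalRingHom t).comp Polynomial.C = RingHom.id A := by
    ext z
    simp
  rw [h2] at h
  exact h

theorem eval_aeval_one {k A : Type} [Field k] [CommRing A] [Algebra k A] {n : ℕ}
    (p : Fin (n + 1) → Polynomial A) (F : MvPolynomial (Fin (n + 1)) k) :
    (aeval p F).eval 1 = aeval (fun j => (p j).eval 1) F := by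
  have h := comp_aeval_apply (f := p)
    (φ := (Polynomial.aeval (1 : A)).restrictScalars k) F
  simpa [Polynomial.coe_aeval_eq_eval] using h

/-- one of finitely many classes has measure one -/
theorem theta_part (Θ : (ℕ → ℂ) →+* ℂ) (S : Set ℕ) (hS : Θ (ind S) = 1) (d : ℕ) (g : ℕ → ℕ)
    (hg : ∀ i ∈ S, g i ≤ d) : ∃ f, Θ (ind {i | i ∈ S ∧ g i = f}) = 1 := by
  classical
  by_contra hcon
  push Not at hcon
  have h1 : ∀ f, Θ (ind {i | i ∈ S ∧ g i = f}) = 0 := fun f =>
    (theta_ind Θ _).resolve_right (hcon f)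
  have h2 : ind S = ∑ f ∈ Finset.range (d + 1), ind {i | i ∈ S ∧ g i = f} := by
    funext i
    rw [Finset.sum_apply]
    by_cases hi : i ∈ S
    · rw [Finset.sum_eq_single (g i)]
      · simp [ind, hi]
      · intro f _ hf
        simp [ind, Ne.symm hf]
      · intro h
        exact absurd (Finset.mem_range.2 (by have := hg i hi; omega)) h
    · simp [ind, hi]
  rw [h2, map_sum] at hS
  simp only [h1, Finset.sum_const_zero] at hS
  exact zero_ne_one hS

/-- **Uniform bounds**, uniform in the variety. -/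
theorem uniform_all (n d s r e : ℕ) : ∃ B : ℕ, ∀ (L : Type) [Field L] (τ : L →+* ℂ)
    (FF GG : Set (MvPolynomial (Fin (n + 1)) L)), (∀ F ∈ FF, ∃ m ≤ d, F.IsHomogeneous m) →
    (∀ G ∈ GG, ∃ m ≤ d, G.IsHomogeneous m) → CurIn τ FF GG →
    ∀ (H : Type) [Group H] (x : H → Fin (n + 1) → L), IterVec s r e x →
    (∀ h, ∀ F ∈ FF, eval (x h) F = 0) → (offPts GG x).encard ≤ (B : ℕ∞) := by
  classical
  by_contra hcon
  have hC : ∀ B : ℕ, ∃ (FF GG : Set (MvPolynomial (Fin (n + 1)) ℂ)),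
      (∀ F ∈ FF, ∃ m ≤ d, F.IsHomogeneous m) ∧ (∀ G ∈ GG, ∃ m ≤ d, G.IsHomogeneous m) ∧
      (∀ q : Fin (n + 1) → Polynomial ℂ, (∀ F ∈ FF, eval₂ Polynomial.C q F = 0) →
        (∃ G ∈ GG, eval₂ Polynomial.C q G ≠ 0) →
        ∀ i j (a b : ℂ), (q i).eval a * (q j).eval b = (q j).eval a * (q i).eval b) ∧
      ∃ (H : Type) (_ : Group H) (x : H → Fin (n + 1) → ℂ), IterVec s r e x ∧
      (∀ h, ∀ F ∈ FF, eval (x h) F = 0) ∧ ∃ (hs : ℕ → H)
        (G : ℕ → MvPolynomial (Fin (n + 1)) ℂ), (∀ i, G i ∈ GG) ∧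
        (∀ i, eval (x (hs i)) (G i) ≠ 0) ∧ (∀ i, x (hs i) ≠ 0) ∧
        ∀ i j, i ≤ B → j ≤ B → i ≠ j →
          ∃ u v, x (hs i) u * x (hs j) v ≠ x (hs i) v * x (hs j) u := by
    intro B
    by_contra h1
    refine hcon ⟨B, ?_⟩
    intro L _ τ FF GG hFF hGG hcur H _ x hx hF
    by_contra h2
    obtain ⟨H, iH, x, hx, hF, hs, G, hG, hG1, h0, hnp⟩ := exists_seqB τ hx hF h2
    refine h1 ⟨map τ '' FF, map τ '' GG, ?_, ?_, ?_, H, iH, x, hx, ?_, hs,
      fun i => map τ (G i), fun i => ⟨_, hG i, rfl⟩, hG1, h0, hnp⟩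
    · rintro _ ⟨F, hF, rfl⟩
      obtain ⟨m, hm, h3⟩ := hFF F hF
      exact ⟨m, hm, h3.map _⟩
    · rintro _ ⟨F, hF, rfl⟩
      obtain ⟨m, hm, h3⟩ := hGG F hF
      exact ⟨m, hm, h3.map _⟩
    · intro q hq hqG
      refine hcur q (fun F hF => ?_) ?_
      · have h3 := hq _ ⟨F, hF, rfl⟩
        rw [eval₂_map] at h3
        exact h3
      · obtain ⟨_, ⟨G, hG, rfl⟩, hne⟩ := hqG
        refine ⟨G, hG, ?_⟩
        rw [eval₂_map] at hne
        exact hne
    · rintro h _ ⟨F, hF', rfl⟩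
      exact hF h F hF'
  choose FF GG hFF hGG hcur Hs iH x hx hF hs Gs hGm hGne h0 hnp using hC
  obtain ⟨Θ, hΘ⟩ := Pool.Agent.Y455.ST.t_THETA
  let xs : (∀ i, Hs i) → Fin (n + 1) → ℂ := fun h j => Θ fun i => x i (h i) j
  have hxs : IterVec s r e xs := (IterVec.prod hx).map Θ
  let a : ℕ → ∀ i, Hs i := fun m i => hs i m
  have hxne : ∀ m, ∃ l, xs (a m) l ≠ 0 := fun m =>
    theta_ne hΘ (fun l i => x i (a m i) l) 0 fun i _ => Function.ne_iff.1 (h0 i m)
  have hcross : ∀ m m', m ≠ m' → ∃ u v, xs (a m) u * xs (a m') v ≠ xs (a m) v * xs (a m') u := by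
    intro m m' hmm
    obtain ⟨⟨u, v⟩, h1⟩ := theta_ne hΘ (fun (p : Fin (n + 1) × Fin (n + 1)) i =>
      x i (a m i) p.1 * x i (a m' i) p.2 - x i (a m i) p.2 * x i (a m' i) p.1) (max m m')
      (fun i hi => by
        obtain ⟨u, v, h1⟩ := hnp i m m' ((le_max_left _ _).trans hi)
          ((le_max_right _ _).trans hi) hmm
        exact ⟨(u, v), sub_ne_zero.2 h1⟩)
    refine ⟨u, v, fun h2 => h1 ?_⟩
    have h3 : (fun i => x i (a m i) u * x i (a m' i) v - x i (a m i) v * x i (a m' i) u) =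
        (fun i => x i (a m i) u) * (fun i => x i (a m' i) v) -
          (fun i => x i (a m i) v) * (fun i => x i (a m' i) u) := rfl
    change Θ (fun i => x i (a m i) u * x i (a m' i) v - x i (a m i) v * x i (a m' i) u) = 0
    rw [h3, map_sub, map_mul, map_mul]
    exact sub_eq_zero.2 h2
  obtain ⟨R, hR, hmem⟩ := hxs.tow
  obtain ⟨Nn, hn, hfi, hres⟩ := exists_res fhyp hR
  have hq : Finite ((∀ i, Hs i) ⧸ Nn) := inferInstance
  obtain ⟨m, m', hmm, hmk⟩ := Finite.exists_ne_map_eq_of_infinite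
    fun m : ℕ => (QuotientGroup.mk (a m) : (∀ i, Hs i) ⧸ Nn)
  have hco : a m' * (a m)⁻¹ ∈ Nn := hn.mem_comm (QuotientGroup.eq.1 hmk)
  obtain ⟨l, hl⟩ := hxne m
  obtain ⟨u, v, huv⟩ := hcross m m' hmm
  obtain ⟨K, i1, i2, Γ, ρ, hρ⟩ := hres (a m)
  obtain ⟨M, j1, j2, q, hq1, hq2, i, hq3⟩ := rat_point hmem hρ hl hco huv
  -- values of limits of forms
  have hval : ∀ (FA : MvPolynomial (Fin (n + 1)) (ℕ → ℂ)) (h : ∀ i, Hs i),
      eval (xs h) (map Θ FA) = Θ fun i => eval (x i (h i))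
        (map (Pi.evalRingHom (fun _ : ℕ => ℂ) i) FA) := by
    intro FA h
    have h1 := ev_hom Θ (fun j i => x i (h i) j) FA
    change _ = eval (xs h) (map Θ FA) at h1
    rw [← h1]
    congr 1
    funext i
    exact ev_hom (Pi.evalRingHom (fun _ : ℕ => ℂ) i) (fun j i => x i (h i) j) FA
  have hcoe : ∀ FA : MvPolynomial (Fin (n + 1)) (ℕ → ℂ),
      map (rng Θ).subtype (map (thr Θ) FA) = map Θ FA := by
    intro FA
    rw [map_map]
    rfl
  -- the form outside
  choose gd hgd1 hgd2 using fun i => hGG i (Gs i m) (hGm i m)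
  obtain ⟨eG, heG⟩ := theta_part Θ Set.univ (by
    have : ind Set.univ = 1 := by funext i; simp [ind]
    rw [this, map_one]) d gd (fun i _ => hgd1 i)
  have heG' : Θ (ind {i | gd i = eG}) = 1 := by
    simpa using heG
  obtain ⟨GA, hGA1, hGA2⟩ := limit_form (fun i => if gd i = eG then Gs i m else 0) eG (by
    intro i
    by_cases hi : gd i = eG
    · rw [if_pos hi, ← hi]
      exact hgd2 i
    · rw [if_neg hi]
      exact isHomogeneous_zero _ _ _)
  have hGs : eval (xs (a m)) (map Θ GA) ≠ 0 := by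
    rw [hval]
    intro h1
    have h2 : ((fun i => eval (x i (a m i)) (map (Pi.evalRingHom (fun _ : ℕ => ℂ) i) GA)) *
        fun i => (eval (x i (a m i)) (map (Pi.evalRingHom (fun _ : ℕ => ℂ) i) GA))⁻¹) =
        ind {i | gd i = eG} := by
      funext i
      rw [Pi.mul_apply, hGA2]
      by_cases hi : gd i = eG
      · rw [if_pos hi]
        simp only [ind, Set.mem_ofPred_eq, if_pos hi]
        exact mul_inv_cancel₀ (hGne i m)
      · rw [if_neg hi, map_zero]
        simp [ind, hi]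
    have h3 := congrArg Θ h2
    rw [map_mul, h1, zero_mul, heG'] at h3
    exact zero_ne_one h3
  -- the curve over the range
  let _ : Algebra (rng Θ) M := ((algebraMap ℂ M).comp (rng Θ).subtype).toAlgebra
  have hcz : CharZero M := charZero_of_injective_algebraMap (algebraMap ℂ M).injective
  have hal : algebraMap (rng Θ) (RatFunc M) =
      (algebraMap ℂ (RatFunc M)).comp (rng Θ).subtype := by
    ext c
    rw [IsScalarTower.algebraMap_apply (rng Θ) M (RatFunc M), RingHom.comp_apply,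
      IsScalarTower.algebraMap_apply ℂ M (RatFunc M)]
    rfl
  have hae : ∀ F : MvPolynomial (Fin (n + 1)) (rng Θ),
      aeval q F = aeval q (map (rng Θ).subtype F) := by
    intro F
    rw [aeval_def, aeval_def, eval₂_map, hal]
  obtain ⟨L', iL, iA, p, hp1, hp2, i', l', hp3⟩ := Pool.Agent.Y837.ST.t_UNI (rng Θ) n
    {F | (∃ d, F.IsHomogeneous d) ∧ aeval q F = 0} (fun F hF' => hF'.1) M q
    (fun F hF' _ _ => hF'.2)
    (fun G hG1 hG2 h1 => hG2 (Ideal.subset_span ⟨hG1, h1⟩)) ⟨i, l, hq2, hq3⟩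
  have hGp : aeval p (map (thr Θ) GA) ≠ 0 := by
    have h1 := hp2 (map (thr Θ) GA) ⟨eG, hGA1.map _⟩ (by
      intro h2
      have h3 : ∀ F ∈ Ideal.span {F : MvPolynomial (Fin (n + 1)) (rng Θ) |
          (∃ d, F.IsHomogeneous d) ∧ aeval q F = 0}, aeval q F = 0 := by
        intro F hF'
        have h4 : Ideal.span {F : MvPolynomial (Fin (n + 1)) (rng Θ) |
            (∃ d, F.IsHomogeneous d) ∧ aeval q F = 0} ≤ RingHom.ker
              (aeval q : MvPolynomial (Fin (n + 1)) (rng Θ) →ₐ[rng Θ] RatFunc M).toRingHom := by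
          rw [Ideal.span_le]
          intro F hF''
          exact hF''.2
        exact h4 hF'
      have h4 := h3 _ h2
      rw [hae, hcoe, hq1 _ eG (hGA1.map _)] at h4
      have h5 := h4 1 Nn.one_mem
      rw [one_mul] at h5
      exact hGs h5)
    intro h2
    apply h1
    have h3 := eval_aeval_one p (map (thr Θ) GA)
    rw [h2, Polynomial.eval_zero] at h3
    exact h3.symm
  obtain ⟨p', hp'1, hp'2, hp'3⟩ := spec_ac (rng Θ) L' p
    {F | (∃ d, F.IsHomogeneous d) ∧ aeval q F = 0}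
    (fun F hF' => hp1 F (Ideal.subset_span hF')) ⟨i', l', hp3⟩ _ hGp
  -- lifting the curve
  have hlift : ∀ j, ∃ P : Polynomial (ℕ → ℂ), P.map (thr Θ) = p' j := by
    intro j
    have h1 : p' j ∈ Polynomial.lifts (thr Θ) := by
      rw [Polynomial.lifts_iff_coeff_lifts]
      intro w
      exact thr_surj Θ _
    exact (Polynomial.mem_lifts _).1 h1
  choose pA hpA using hlift
  have hpA' : (fun j => (pA j).map (thr Θ)) = p' := funext hpA
  have haevalC : ∀ F : MvPolynomial (Fin (n + 1)) (rng Θ),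
      aeval p' F = eval₂ Polynomial.C p' F := fun F => rfl
  -- the outside condition
  obtain ⟨w, hw⟩ : ∃ w, (aeval p' (map (thr Θ) GA)).coeff w ≠ 0 := by
    by_contra h
    push Not at h
    exact hp'3 (Polynomial.ext fun m => by rw [h m, Polynomial.coeff_zero])
  set γ : ℕ → ℂ := (eval₂ Polynomial.C pA GA).coeff w with hγ
  have hγ0 : Θ γ ≠ 0 := by
    rw [Ne, ← thr_eq_zero]
    intro h1
    apply hw
    rw [haevalC, ← hpA', ← pol_hom, Polynomial.coeff_map]
    exact h1
  -- the curve is not constant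
  obtain ⟨i1, i2, hi12⟩ := hp'2
  obtain ⟨w', hw'⟩ : ∃ w, (p' i1 * Polynomial.C ((p' i2).eval 1) -
      p' i2 * Polynomial.C ((p' i1).eval 1)).coeff w ≠ 0 := by
    by_contra h
    push Not at h
    apply hi12
    rw [← sub_eq_zero]
    exact Polynomial.ext fun m => by rw [h m, Polynomial.coeff_zero]
  set δ : ℕ → ℂ := (pA i1 * Polynomial.C ((pA i2).eval 1) -
      pA i2 * Polynomial.C ((pA i1).eval 1)).coeff w' with hδ
  have heval1 : ∀ (B : Type) [CommRing B] (ψ : (ℕ → ℂ) →+* B) (j : Fin (n + 1)),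
      ((pA j).map ψ).eval 1 = ψ ((pA j).eval 1) := by
    intro B _ ψ j
    rw [Polynomial.eval_map, ← Polynomial.eval₂_at_apply, map_one]
  have hδmap : ∀ (B : Type) [CommRing B] (ψ : (ℕ → ℂ) →+* B),
      ψ δ = ((pA i1).map ψ * Polynomial.C (((pA i2).map ψ).eval 1) -
        (pA i2).map ψ * Polynomial.C (((pA i1).map ψ).eval 1)).coeff w' := by
    intro B _ ψ
    rw [hδ, ← Polynomial.coeff_map, Polynomial.map_sub, Polynomial.map_mul, Polynomial.map_mul,
      Polynomial.map_C, Polynomial.map_C, heval1, heval1]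
  have hδ0 : Θ δ ≠ 0 := by
    rw [Ne, ← thr_eq_zero]
    intro h1
    apply hw'
    rw [hδmap, hpA, hpA] at h1
    exact h1
  -- the good indices
  let pc : ℕ → Fin (n + 1) → Polynomial ℂ := fun i j =>
    (pA j).map (Pi.evalRingHom (fun _ : ℕ => ℂ) i)
  have hgood : ∀ i, γ i * δ i ≠ 0 → ∃ F ∈ FF i, ∃ t : ℂ,
      eval (fun j => (pc i j).eval t) F ≠ 0 := by
    intro i hi
    have hγi : γ i ≠ 0 := left_ne_zero_of_mul hi
    have hδi : δ i ≠ 0 := right_ne_zero_of_mul hi
    -- outside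
    have hG1 : eval₂ Polynomial.C (pc i) (if gd i = eG then Gs i m else 0) ≠ 0 := by
      intro h1
      apply hγi
      have h2 : γ i = (eval₂ Polynomial.C (pc i)
          (map (Pi.evalRingHom (fun _ : ℕ => ℂ) i) GA)).coeff w := by
        have h3 := pol_hom (Pi.evalRingHom (fun _ : ℕ => ℂ) i) pA GA
        change _ = eval₂ Polynomial.C (pc i) _ at h3
        rw [← h3, Polynomial.coeff_map]
        rfl
      rw [h2, hGA2, h1, Polynomial.coeff_zero]
    have hG2 : eval₂ Polynomial.C (pc i) (Gs i m) ≠ 0 := by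
      by_cases hgi : gd i = eG
      · rw [if_pos hgi] at hG1
        exact hG1
      · rw [if_neg hgi] at hG1
        exact absurd (map_zero (eval₂Hom Polynomial.C (pc i))) hG1
    by_contra hcon2
    push Not at hcon2
    have h4 := hcur i (pc i) (fun F hF' => by
      apply Polynomial.funext
      intro t
      rw [eval_at, Polynomial.eval_zero]
      exact hcon2 F hF' t) ⟨_, hGm i m, hG2⟩
    apply hδi
    have h5 := hδmap ℂ (Pi.evalRingHom (fun _ : ℕ => ℂ) i)
    change δ i = _ at h5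
    rw [h5]
    have h6 : (pA i1).map (Pi.evalRingHom (fun _ : ℕ => ℂ) i) *
        Polynomial.C (((pA i2).map (Pi.evalRingHom (fun _ : ℕ => ℂ) i)).eval 1) =
        (pA i2).map (Pi.evalRingHom (fun _ : ℕ => ℂ) i) *
        Polynomial.C (((pA i1).map (Pi.evalRingHom (fun _ : ℕ => ℂ) i)).eval 1) := by
      apply Polynomial.funext
      intro t
      rw [Polynomial.eval_mul, Polynomial.eval_mul, Polynomial.eval_C, Polynomial.eval_C]
      exact h4 i1 i2 t 1
    rw [h6, sub_self, Polynomial.coeff_zero]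
  have hSm : Θ (ind {i | (γ * δ) i ≠ 0}) = 1 :=
    theta_supp Θ _ (by rw [map_mul]; exact mul_ne_zero hγ0 hδ0)
  have hex : ∀ i, ∃ (F : MvPolynomial (Fin (n + 1)) ℂ) (t : ℂ) (f : ℕ), F.IsHomogeneous f ∧
      ((γ * δ) i ≠ 0 → F ∈ FF i ∧ f ≤ d ∧ eval (fun j => (pc i j).eval t) F ≠ 0) := by
    intro i
    by_cases hi : (γ * δ) i ≠ 0
    · obtain ⟨F, hF1, t, ht⟩ := hgood i hi
      obtain ⟨f, hf, hf2⟩ := hFF i F hF1
      exact ⟨F, t, f, hf2, fun _ => ⟨hF1, hf, ht⟩⟩
    · exact ⟨0, 0, 0, isHomogeneous_zero _ _ _, fun h => absurd h hi⟩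
  choose Fi ti fi hFi1 hFi2 using hex
  obtain ⟨f, hf⟩ := theta_part Θ _ hSm d fi (fun i hi => (hFi2 i hi).2.1)
  set S : Set ℕ := {i | i ∈ {i | (γ * δ) i ≠ 0} ∧ fi i = f} with hSdef
  obtain ⟨FA, hFA1, hFA2⟩ := limit_form (fun i => if i ∈ S then
    C (eval (fun j => (pc i j).eval (ti i)) (Fi i))⁻¹ * Fi i else 0) f (by
    intro i
    by_cases hi : i ∈ S
    · rw [if_pos hi]
      have h1 := (isHomogeneous_C (Fin (n + 1))
        (eval (fun j => (pc i j).eval (ti i)) (Fi i))⁻¹).mul (hFi1 i)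
      rw [zero_add, hi.2] at h1
      exact h1
    · rw [if_neg hi]
      exact isHomogeneous_zero _ _ _)
  -- it vanishes on the family
  have hF0 : ∀ h, eval (xs h) (map Θ FA) = 0 := by
    intro h
    rw [hval]
    have h1 : (fun i => eval (x i (h i)) (map (Pi.evalRingHom (fun _ : ℕ => ℂ) i) FA)) = 0 := by
      funext i
      rw [hFA2]
      by_cases hi : i ∈ S
      · rw [if_pos hi, map_mul, hF i (h i) (Fi i) (hFi2 i hi.1).1, mul_zero]
        rfl
      · rw [if_neg hi, map_zero]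
        rfl
    rw [h1, map_zero]
  have hF1 : aeval p' (map (thr Θ) FA) = 0 := by
    refine hp'1 _ ⟨⟨f, hFA1.map _⟩, ?_⟩
    rw [hae, hcoe, hq1 _ f (hFA1.map _)]
    intro g _
    exact hF0 _
  -- evaluation at the limit parameter
  have h7 : eval₂ Polynomial.C p' (map (thr Θ) FA) = 0 := hF1
  have h8 := eval_at p' (map (thr Θ) FA) (thr Θ ti)
  rw [h7, Polynomial.eval_zero] at h8
  have h9 : (fun j => (p' j).eval (thr Θ ti)) = fun j => thr Θ ((pA j).eval ti) := by
    funext j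
    rw [← hpA j, Polynomial.eval_map, Polynomial.eval₂_at_apply]
  rw [h9, ← ev_hom] at h8
  have h10 : eval (fun j => (pA j).eval ti) FA = ind S := by
    funext i
    have h11 := ev_hom (Pi.evalRingHom (fun _ : ℕ => ℂ) i) (fun j => (pA j).eval ti) FA
    change (eval (fun j => (pA j).eval ti) FA) i = _ at h11
    rw [h11, hFA2]
    have h12 : (fun j => (Pi.evalRingHom (fun _ : ℕ => ℂ) i) ((pA j).eval ti)) =
        fun j => (pc i j).eval (ti i) := by
      funext j
      have h13 := Polynomial.eval₂_at_apply (p := pA j) (Pi.evalRingHom (fun _ : ℕ => ℂ) i) ti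
      rw [← Polynomial.eval_map] at h13
      exact h13.symm
    rw [h12]
    by_cases hi : i ∈ S
    · rw [if_pos hi, map_mul, eval_C]
      simp only [ind, if_pos hi]
      exact inv_mul_cancel₀ (hFi2 i hi.1).2.2
    · rw [if_neg hi, map_zero]
      simp only [ind, if_neg hi]
  rw [h10] at h8
  have h14 : Θ (ind S) = 0 := (thr_eq_zero Θ _).1 h8.symm
  rw [hf] at h14
  exact one_ne_zero h14

end Pool.Agent.N419.HU
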